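import Pool.Agent.Q287.NT.Stm

set_option autoImplicit false

/-!
# Jobs NT-EVOK, NT-POW, NT-LOG
-/

namespace Pool.Agent.Q272.NT

open MeasureTheory Q287.NT Filter Topology
open scoped ENNReal

/-- Job NT-EVOK. -/
theorem t_EVOK : S_EVOK := by
  have hk0 : 0 ≤ kap := Real.sqrt_nonneg _
  have hk1 : kap < 1 := by
    unfold kap
    rw [Real.sqrt_lt' one_pos]
    norm_num
  have t1 : Tendsto (fun d : ℕ => kap ^ d * (10 * (d : ℝ) + 6)) atTop (𝓝 0) := by
    have h1 := (tendsto_self_mul_const_pow_of_lt_one hk0 hk1).const_mul 10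
    have h2 := (tendsto_pow_atTop_nhds_zero_of_lt_one hk0 hk1).const_mul 6
    have h3 := h1.add h2
    simp only [mul_zero, add_zero] at h3
    refine h3.congr (fun d => ?_)
    ring
  have e1 : ∀ᶠ d : ℕ in atTop, kap ^ d * (10 * (d : ℝ) + 6) ≤ 1 / 8 :=
    (t1.eventually (gt_mem_nhds (by norm_num : (0 : ℝ) < 1 / 8))).mono fun d hd => hd.le
  have e2 : ∀ᶠ d : ℕ in atTop, 4096 * (8 : ℝ) ^ d ≤ Real.exp ((3 : ℝ) ^ d / 64) := by
    -- `3 ^ d / 64 ≥ 3 d + 12` eventually
    have t2 : Tendsto (fun d : ℕ => (d : ℝ) * (1 / 3 : ℝ) ^ d) atTop (𝓝 0) :=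
      tendsto_self_mul_const_pow_of_lt_one (by norm_num) (by norm_num)
    have t3 : Tendsto (fun d : ℕ => (1 / 3 : ℝ) ^ d) atTop (𝓝 0) :=
      tendsto_pow_atTop_nhds_zero_of_lt_one (by norm_num) (by norm_num)
    have t4 : Tendsto (fun d : ℕ => 64 * (3 * ((d : ℝ) * (1 / 3 : ℝ) ^ d) + 12 * (1 / 3 : ℝ) ^ d))
        atTop (𝓝 0) := by
      have := ((t2.const_mul 3).add (t3.const_mul 12)).const_mul 64
      simpa using this
    filter_upwards [t4.eventually (gt_mem_nhds one_pos)] with d hd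
    have h3 : (0 : ℝ) < 3 ^ d := by positivity
    have h4 : (1 / 3 : ℝ) ^ d = 1 / 3 ^ d := by rw [div_pow, one_pow]
    rw [h4] at hd
    have h5 : 64 * (3 * (d : ℝ) + 12) < 3 ^ d := by
      have : 64 * (3 * ((d : ℝ) * (1 / 3 ^ d)) + 12 * (1 / 3 ^ d)) =
          64 * (3 * (d : ℝ) + 12) / 3 ^ d := by
        field_simp
      rw [this, div_lt_one h3] at hd
      exact hd
    have h6 : 3 * (d : ℝ) + 12 ≤ 3 ^ d / 64 := by
      rw [le_div_iff₀ (by norm_num)]
      linarith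
    have h7 : (2 : ℝ) ≤ Real.exp 1 := by
      have := Real.exp_one_gt_d9
      linarith
    calc 4096 * (8 : ℝ) ^ d = 2 ^ (3 * d + 12) := by
          rw [pow_add, pow_mul]
          norm_num
          ring
      _ ≤ Real.exp 1 ^ (3 * d + 12) := pow_le_pow_left₀ (by norm_num) h7 _
      _ = Real.exp (3 * (d : ℝ) + 12) := by
          rw [← Real.exp_nat_mul]
          congr 1
          push_cast
          ring
      _ ≤ _ := Real.exp_le_exp.2 h6
  obtain ⟨d0, hd0⟩ := eventually_atTop.1 ((eventually_ge_atTop 128).and (e1.and e2))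
  exact ⟨d0, fun d hd => ⟨(hd0 d hd).1, (hd0 d hd).2.1, (hd0 d hd).2.2⟩⟩

/-- Job NT-POW. -/
theorem t_POW : S_POW := by
  intro f d A B p hd hA hB hp hf1 hf2
  have hdR : (0 : ℝ) < 3 * d := by
    have : (1 : ℝ) ≤ d := by exact_mod_cast hd
    linarith
  set e : ℝ := 1 / (3 * (d : ℝ)) with he
  have he0 : 0 < e := by positivity
  have he1 : e ≤ 1 := by
    rw [he, div_le_one hdR]
    have : (1 : ℝ) ≤ d := by exact_mod_cast hd
    linarith
  have hAB : 0 < A + B := by linarith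
  set K : ℝ := (A + B) ^ e with hK
  have hK0 : 0 < K := Real.rpow_pos_of_pos hAB _
  refine ⟨min (1 / K) (p / (2 * K)), by positivity, fun n hn => ?_⟩
  have hnR : (1 : ℝ) ≤ n := by exact_mod_cast hn
  have hn0 : (0 : ℝ) ≤ n := by linarith
  by_cases hsmall : (n : ℝ) < A + B
  · have h1 : (n : ℝ) ^ e ≤ K := Real.rpow_le_rpow hn0 hsmall.le he0.le
    calc min (1 / K) (p / (2 * K)) * (n : ℝ) ^ e ≤ (1 / K) * K :=
          mul_le_mul (min_le_left _ _) h1 (Real.rpow_nonneg hn0 _) (by positivity)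
      _ = 1 := by field_simp
      _ ≤ f n := hf1 n hn
  · push Not at hsmall
    have hP0 : A + B * 8 ^ (d * 0) ≤ n := by simpa using hsmall
    have hex : ∃ m : ℕ, (n : ℝ) < A + B * 8 ^ (d * (m + 1)) := by
      have t : Tendsto (fun m : ℕ => (8 : ℝ) ^ m) atTop atTop :=
        tendsto_pow_atTop_atTop_of_one_lt (by norm_num)
      obtain ⟨m, hm⟩ := (t.eventually_gt_atTop ((n : ℝ) / B)).exists
      refine ⟨m, ?_⟩
      rw [div_lt_iff₀ hB] at hm
      have h8 : (8 : ℝ) ^ m ≤ 8 ^ (d * (m + 1)) :=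
        pow_le_pow_right₀ (by norm_num) (by nlinarith)
      nlinarith
    classical
    set m := Nat.find hex with hm
    have hm1 : (n : ℝ) < A + B * 8 ^ (d * (m + 1)) := Nat.find_spec hex
    have hm2 : A + B * 8 ^ (d * m) ≤ n := by
      rcases Nat.eq_zero_or_pos m with h0 | h0
      · rw [h0]
        exact hP0
      · have h1 := Nat.find_min hex (m := m - 1) (by omega)
        push Not at h1
        rwa [Nat.sub_add_cancel h0] at h1
    have h2 := hf2 m n hm2
    have h3 : (n : ℝ) ≤ (A + B) * (2 ^ (m + 1)) ^ (3 * d) := by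
      have e1 : ((2 : ℝ) ^ (m + 1)) ^ (3 * d) = 8 ^ (d * (m + 1)) := by
        rw [← pow_mul, show (m + 1) * (3 * d) = 3 * (d * (m + 1)) by ring, pow_mul]
        norm_num
      rw [e1]
      have e2 : (1 : ℝ) ≤ 8 ^ (d * (m + 1)) := one_le_pow₀ (by norm_num)
      nlinarith
    have h4 : (n : ℝ) ^ e ≤ K * 2 ^ (m + 1) := by
      calc (n : ℝ) ^ e ≤ ((A + B) * (2 ^ (m + 1)) ^ (3 * d)) ^ e :=
            Real.rpow_le_rpow hn0 h3 he0.le
        _ = K * ((2 ^ (m + 1)) ^ (3 * d)) ^ e := by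
            rw [Real.mul_rpow hAB.le (by positivity)]
        _ = K * 2 ^ (m + 1) := by
            congr 1
            rw [← Real.rpow_natCast ((2 : ℝ) ^ (m + 1)) (3 * d), ← Real.rpow_mul (by positivity)]
            have : ((3 * d : ℕ) : ℝ) * e = 1 := by
              rw [he]
              push_cast
              field_simp
            rw [this, Real.rpow_one]
    calc min (1 / K) (p / (2 * K)) * (n : ℝ) ^ e ≤ (p / (2 * K)) * (K * 2 ^ (m + 1)) :=
          mul_le_mul (min_le_right _ _) h4 (Real.rpow_nonneg hn0 _) (by positivity)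
      _ = p * 2 ^ m := by
          rw [pow_succ]
          field_simp
      _ ≤ f n := h2

/-- Job NT-LOG. -/
theorem t_LOG : S_LOG := by
  intro c a C k hc ha
  have h1 := isLittleO_log_rpow_rpow_atTop (r := (k : ℝ)) (s := a) ha
  have hb : (0 : ℝ) < c / (|C| + 1) := by positivity
  have h2 := h1.def (show (0 : ℝ) < c / (|C| + 1) / 2 by positivity)
  have h3 : ∀ᶠ n : ℕ in atTop, ‖Real.log (n : ℝ) ^ (k : ℝ)‖ ≤
      c / (|C| + 1) / 2 * ‖(n : ℝ) ^ a‖ := tendsto_natCast_atTop_atTop.eventually h2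
  obtain ⟨n, hn, hn2⟩ := (h3.and (eventually_ge_atTop 2)).exists
  refine ⟨n, hn2, ?_⟩
  have hnR : (2 : ℝ) ≤ n := by exact_mod_cast hn2
  have hlog : 0 ≤ Real.log n := Real.log_nonneg (by linarith)
  have hpos : 0 < (n : ℝ) ^ a := Real.rpow_pos_of_pos (by linarith) _
  rw [Real.rpow_natCast, Real.norm_of_nonneg (by positivity), Real.norm_of_nonneg hpos.le] at hn
  have h4 : C * Real.log n ^ k ≤ (|C| + 1) * Real.log n ^ k := by
    apply mul_le_mul_of_nonneg_right _ (by positivity)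
    have := le_abs_self C
    linarith
  have h5 : (|C| + 1) * Real.log n ^ k ≤ (|C| + 1) * (c / (|C| + 1) / 2 * (n : ℝ) ^ a) :=
    mul_le_mul_of_nonneg_left hn (by positivity)
  have h6 : (|C| + 1) * (c / (|C| + 1) / 2 * (n : ℝ) ^ a) = c / 2 * (n : ℝ) ^ a := by
    have : (|C| + 1) ≠ 0 := by positivity
    field_simp
  have h7 : c / 2 * (n : ℝ) ^ a < c * (n : ℝ) ^ a := by
    apply mul_lt_mul_of_pos_right _ hpos
    linarith
  linarith

end Pool.Agent.Q272.NT
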