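import Pool.Agent.Q272.NT.Walk

set_option autoImplicit false

/-!
# Job NT-INIT
-/

namespace Pool.Agent.Q272.NT

open MeasureTheory Q287.NT Filter Topology
open scoped ENNReal

lemma td_single {d : ℕ} (i0 : Fin d) (a : ℝ) (ha : |a| ≤ 1 / 2) :
    td (prj (Pi.single i0 a)) 0 = |a| := by
  rw [td_prj]
  · have : ∑ i, (Pi.single i0 a : Fin d → ℝ) i ^ 2 = a ^ 2 := by
      rw [Finset.sum_eq_single i0]
      · rw [Pi.single_eq_same]
      · intro b _ hb
        rw [Pi.single_eq_of_ne hb]
        norm_num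
      · intro h
        exact absurd (Finset.mem_univ _) h
    rw [this, Real.sqrt_sq_eq_abs]
  · intro i
    by_cases h : i = i0
    · rw [h, Pi.single_eq_same]
      exact ha
    · rw [Pi.single_eq_of_ne h, abs_zero]
      norm_num

/-- The deterministic part. -/
lemma init_det (h2 : S_PAR) {d : ℕ} (s : ℝ) (hs : s = 1 / 32) (N : ℕ) (z : ℕ → Tor d)
    (p : Tor d) (c : ℕ → Tor d) (hc0 : c 0 = 0) (hcz : ∀ k ≤ N, c (k + 1) = z k)
    (hcp : c (N + 2) = p) (hz1 : td (z 0) 0 = 5 * s / 2) (hp : td p 0 = s)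
    (hpz : td p (z 0) = 7 * s / 2) (hstep : ∀ k < N, td (z k) (z (k + 1)) < s / 10)
    (hfar : ∀ k ≤ N, 5 * s / 2 ≤ td (z k) 0)
    (hnet : ∀ y : Tor d, 5 * s / 2 ≤ td y 0 → ∃ k ≤ N, td y (z k) < s / 10)
    (x : ℕ → Tor d) (hx : ∀ i ≤ N + 2, td (x i) (c i) < s / 100) :
    Good x (N + 2) ∧ s / 2 ≤ Rp x (N + 2) := by
  obtain ⟨par0, par1, par2⟩ := h2 d x
  have hs0 : 0 < s := by rw [hs]; norm_num
  have hx0 : td (x 0) 0 < s / 100 := by
    have := hx 0 (by omega)
    rwa [hc0] at this
  have hxp : td (x (N + 2)) p < s / 100 := by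
    have := hx (N + 2) le_rfl
    rwa [hcp] at this
  have hxz : ∀ k ≤ N, td (x (k + 1)) (z k) < s / 100 := by
    intro k hk
    have := hx (k + 1) (by omega)
    rwa [hcz k hk] at this
  -- distances
  have d1 : ∀ k ≤ N, 5 * s / 2 - 2 * (s / 100) ≤ td (x (k + 1)) (x 0) := by
    intro k hk
    have t1 := td_triangle (z k) (x (k + 1)) 0
    have t2 := td_triangle (x (k + 1)) (x 0) 0
    have t3 := hfar k hk
    have t4 := hxz k hk
    rw [td_comm] at t4
    linarith
  have d2 : td (x (N + 2)) (x 0) ≤ s + 2 * (s / 100) := by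
    have t1 := td_triangle (x (N + 2)) p (x 0)
    have t2 := td_triangle p 0 (x 0)
    rw [td_comm] at hx0
    linarith
  have d3 : s - 2 * (s / 100) ≤ td (x (N + 2)) (x 0) := by
    have t1 := td_triangle p (x (N + 2)) 0
    have t2 := td_triangle (x (N + 2)) (x 0) 0
    rw [td_comm] at hxp
    linarith
  have d4 : ∀ k ≤ N, 3 * s / 2 - 2 * (s / 100) ≤ td (x (N + 2)) (x (k + 1)) := by
    intro k hk
    have t1 := td_triangle (z k) (x (k + 1)) 0
    have t2 := td_triangle (x (k + 1)) (x (N + 2)) 0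
    have t3 := td_triangle (x (N + 2)) p 0
    have t4 := hfar k hk
    have t5 := hxz k hk
    rw [td_comm] at t5
    rw [td_comm (x (N + 2)) (x (k + 1))]
    linarith
  have d5 : ∀ k < N, td (x (k + 1 + 1)) (x (k + 1)) < s / 10 + 2 * (s / 100) := by
    intro k hk
    have t1 := td_triangle (x (k + 1 + 1)) (z (k + 1)) (x (k + 1))
    have t2 := td_triangle (z (k + 1)) (z k) (x (k + 1))
    have t3 := hxz (k + 1) (by omega)
    have t4 := hxz k (by omega)
    have t5 := hstep k hk
    rw [td_comm] at t4 t5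
    linarith
  have d6 : 7 * s / 2 - 2 * (s / 100) ≤ td (x (N + 2)) (x 1) := by
    have t1 := td_triangle p (x (N + 2)) (z 0)
    have t2 := td_triangle (x (N + 2)) (x 1) (z 0)
    have t3 := hxz 0 (by omega)
    rw [td_comm] at hxp
    rw [zero_add] at t3
    linarith
  have d7 : td (x 0) (x 1) ≤ 5 * s / 2 + 2 * (s / 100) := by
    have t1 := td_triangle (x 0) 0 (x 1)
    have t2 := td_triangle 0 (z 0) (x 1)
    have t3 := hxz 0 (by omega)
    rw [zero_add, td_comm] at t3
    rw [td_comm] at hz1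
    linarith
  -- parents
  have p1 : ∀ k, 2 ≤ k → k < N + 2 → parent x k ≠ 0 := by
    intro k hk1 hk2 hcon
    obtain ⟨j, rfl⟩ : ∃ j, k = j + 1 + 1 := ⟨k - 2, by omega⟩
    have t1 := (par1 (j + 1 + 1) (by omega)).2 (j + 1) (by omega)
    rw [hcon] at t1
    have t2 := d1 (j + 1) (by omega)
    have t3 := d5 j (by omega)
    linarith
  have p2 : parent x (N + 2) = 0 := by
    apply par2 (N + 2) 0 (by omega)
    · intro k hk
      rcases Nat.eq_zero_or_pos k with rfl | hk0
      · exact le_rfl
      · obtain ⟨j, rfl⟩ : ∃ j, k = j + 1 := ⟨k - 1, by omega⟩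
        have := d4 j (by omega)
        linarith
    · intro k hk
      omega
  have hRp : Rp x (N + 2) = td (x (N + 2)) (x 0) := by
    unfold Rp
    rw [p2]
  have hdc0 : ¬ DC x 0 := fun h => by
    have := h.1
    omega
  have hdct : ¬ DC x (N + 2) := by
    rintro ⟨-, q, hq, hor, hlt⟩
    rw [p2] at hor hlt
    rcases hor with ⟨h, -⟩ | ⟨h, h'⟩
    · omega
    · have hq1 : q = 1 := by
        by_contra hne
        exact p1 q (by omega) hq h'
      rw [hq1] at hlt
      linarith
  have hUN : UN x (N + 2) := by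
    intro k
    cases k with
    | zero => exact hdct
    | succ k =>
      have : (parent x)^[k + 1] (N + 2) = 0 := by
        rw [Function.iterate_succ_apply, p2]
        exact Function.iterate_fixed par0 k
      rw [this]
      exact hdc0
  have hFar : Far x (N + 2) = ∅ := by
    ext y
    simp only [Set.mem_empty_iff_false, iff_false]
    rintro ⟨h3, h4⟩
    rw [hRp] at h3
    by_cases hy : 5 * s / 2 ≤ td y 0
    · obtain ⟨k, hk, hyk⟩ := hnet y hy
      have t1 := h4 (k + 1) (by omega)
      have t2 := td_triangle y (z k) (x (k + 1))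
      have t3 := hxz k hk
      rw [td_comm] at t3
      have t4 := td_triangle y (x (N + 2)) 0
      have t5 := td_triangle (x (N + 2)) p 0
      linarith
    · push Not at hy
      have t1 := h4 0 (by omega)
      have t2 := td_triangle y 0 (x 0)
      rw [td_comm] at hx0
      linarith
  refine ⟨⟨by omega, hUN, ?_, ?_, ?_⟩, ?_⟩
  · rw [hRp]
    linarith
  · rw [hRp, hs] at *
    linarith
  · rw [hFar, measure_empty]
    exact zero_le
  · rw [hRp]
    linarith

/-- Job NT-INIT. -/
theorem t_INIT (h1 : S_WALK) (h2 : S_PAR) : S_INIT := by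
  intro d hd
  have i0 : Fin d := ⟨0, by omega⟩
  obtain ⟨s, hs⟩ : ∃ s : ℝ, s = 1 / 32 := ⟨_, rfl⟩
  have hs0 : 0 < s := by rw [hs]; norm_num
  set z1 : Tor d := prj (Pi.single i0 (5 * s / 2)) with hz1
  set p : Tor d := prj (Pi.single i0 (-s)) with hp
  have e1 : td z1 0 = 5 * s / 2 := by
    rw [hz1, td_single i0 _ (by rw [abs_of_pos (by positivity), hs]; norm_num),
      abs_of_pos (by positivity)]
  have e2 : td p 0 = s := by
    rw [hp, td_single i0 _ (by rw [abs_neg, abs_of_pos hs0, hs]; norm_num), abs_neg,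
      abs_of_pos hs0]
  have e3 : td p z1 = 7 * s / 2 := by
    rw [← td_sub_zero, hp, hz1, prj_sub]
    have : (Pi.single i0 (-s) - Pi.single i0 (5 * s / 2) : Fin d → ℝ) =
        Pi.single i0 (-(7 * s / 2)) := by
      rw [← Pi.single_sub]
      congr 1
      ring
    rw [this, td_single i0 _ (by rw [abs_neg, abs_of_pos (by positivity), hs]; norm_num), abs_neg,
      abs_of_pos (by positivity)]
  obtain ⟨N, z, hz0, hstep, hfar, hnet⟩ := h1 d z1 (5 * s / 2) (s / 10) (by positivity) e1.ge
  set c : ℕ → Tor d := fun k => if k = 0 then 0 else if k ≤ N + 1 then z (k - 1) else p with hc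
  refine ⟨N + 2, s / 2, by positivity, by rw [hs]; norm_num, ?_⟩
  have hsub : (Set.pi (Finset.range (N + 3) : Set ℕ) fun i => {y : Tor d | td y (c i) < s / 100}) ⊆
      {x : ℕ → Tor d | Good x (N + 2) ∧ s / 2 ≤ Rp x (N + 2)} := by
    intro x hx
    apply init_det h2 s hs N z p c
    · simp only [hc, if_true]
    · intro k hk
      simp only [hc]
      rw [if_neg (by omega), if_pos (by omega), Nat.add_sub_cancel]
    · simp only [hc]
      rw [if_neg (by omega), if_neg (by omega)]
    · rw [hz0, e1]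
    · exact e2
    · rw [hz0, e3]
    · exact hstep
    · exact hfar
    · exact hnet
    · intro i hi
      exact hx i (by simp; omega)
  refine lt_of_lt_of_le ?_ (measure_mono hsub)
  unfold PP
  rw [Measure.infinitePi_pi]
  · rw [← Finset.prod_congr rfl (fun i _ => (vol_ball (c i) (s / 100)).symm)]
    rw [CanonicallyOrderedAdd.prod_pos]
    intro i _
    exact ENNReal.ofReal_pos.2 (V_pos (by positivity))
  · intro i _
    exact measurableSet_lt (measurable_td measurable_id measurable_const) measurable_const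

end Pool.Agent.Q272.NT
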