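import Pool.Agent.Q272.NT.Scale

set_option autoImplicit false

/-!
# Job NT-LENS
-/

namespace Pool.Agent.Q272.NT

open MeasureTheory Q287.NT
open scoped ENNReal Pointwise

lemma exists_rep {d : ℕ} (Q : Tor d) :
    ∃ q : Fin d → ℝ, (∀ i, q i ∈ Set.Ioc (-(1 / 2) : ℝ) (1 / 2)) ∧ prj q = Q := by
  have h : ∀ i, ∃ x : ℝ, x ∈ Set.Ioc (-(1 / 2) : ℝ) (1 / 2) ∧ ((x : ℝ) : UnitAddCircle) = Q i := by
    intro i
    have h1 : Q i ∈ ((↑) : ℝ → UnitAddCircle) '' Set.Ioc (-(1 / 2) : ℝ) (-(1 / 2) + 1) := by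
      rw [AddCircle.coe_image_Ioc_eq (1 : ℝ) (-(1 / 2))]
      exact Set.mem_univ _
    obtain ⟨x, hx, hxQ⟩ := h1
    refine ⟨x, ?_, hxQ⟩
    norm_num at hx ⊢
    exact hx
  choose q hq1 hq2 using h
  exact ⟨q, hq1, funext hq2⟩

/-- The elementary estimate. -/
lemma lens_est (A B C r r' : ℝ) (hr' : 0 < r') (hr : 0 < r) (h4 : r ^ 4 ≤ 2 * r' ^ 4)
    (hA1 : r' ^ 2 ≤ A) (hA2 : A < r ^ 2) (hAB : A < 2 * B) (hC : C ≤ 576 * r ^ 2)
    (hC0 : 0 < C) :
    A - 2 * (r' ^ 2 / (2 * C)) * B + (r' ^ 2 / (2 * C)) ^ 2 * C < r ^ 2 * (1 - 1 / 4608) := by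
  set a : ℝ := r' ^ 2 / (2 * C) with ha
  have ha0 : 0 < a := by positivity
  have haC : a * C = r' ^ 2 / 2 := by
    rw [ha]
    field_simp
  have h1 : A - 2 * a * B + a ^ 2 * C ≤ A - a * A + a * (r' ^ 2 / 2) := by
    have : a ^ 2 * C = a * (a * C) := by ring
    rw [this, haC]
    nlinarith
  have h2 : a * r' ^ 2 ≤ a * A := mul_le_mul_of_nonneg_left hA1 ha0.le
  have h3 : r ^ 2 / 4608 ≤ a * (r' ^ 2 / 2) := by
    have h5 : a * (r' ^ 2 / 2) = r' ^ 4 / (4 * C) := by
      rw [ha]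
      field_simp
      ring
    rw [h5, div_le_div_iff₀ (by norm_num) (by positivity)]
    have h6 : r ^ 2 * C ≤ r ^ 2 * (576 * r ^ 2) := mul_le_mul_of_nonneg_left hC (by positivity)
    nlinarith
  nlinarith

lemma V_eq (h2 : S_EUC) (d : ℕ) (s : ℝ) (hs : 0 < s) (hs2 : s ≤ 1 / 2) :
    volume {z : Fin d → ℝ | ∑ i, z i ^ 2 < s ^ 2} = ENNReal.ofReal (V d s) := by
  have h := h2 d s hs hs2
  have hpos : 0 < V d s := V_pos hs
  rw [h] at hpos ⊢
  have hne : volume {z : Fin d → ℝ | ∑ i, z i ^ 2 < s ^ 2} ≠ ⊤ := by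
    intro hc
    rw [hc] at hpos
    simp at hpos
  rw [ENNReal.ofReal_toReal hne]

/-- Job NT-LENS. -/
theorem t_LENS (h1 : S_LIFT) (h2 : S_EUC) (h3 : S_SCALE) : S_LENS := by
  intro d c q r' r hd hr' hr hr64 hrr hq
  obtain ⟨q', hq'c, hq'⟩ := exists_rep (q - c)
  have hq'abs : ∀ i, |q' i| ≤ 1 / 2 := by
    intro i
    have := hq'c i
    rw [abs_le]
    exact ⟨by linarith [this.1], this.2⟩
  have hrr' : r' ≤ r := by
    by_contra hcon
    push Not at hcon
    have := pow_lt_pow_left₀ hcon hr.le (by omega : d ≠ 0)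
    have h5 : 0 < r' ^ d := by positivity
    linarith
  have h4 : r ^ 4 ≤ 2 * r' ^ 4 := by
    have e1 : (r' / r) ^ d = 1 / 2 := by
      rw [div_pow, ← hrr]
      field_simp
    have e2 : (r' / r) ^ d ≤ (r' / r) ^ 4 :=
      pow_le_pow_of_le_one (by positivity) (by rw [div_le_one hr]; exact hrr') hd
    rw [e1, div_pow, div_le_div_iff₀ (by norm_num) (by positivity)] at e2
    linarith
  set C : ℝ := ∑ i, q' i ^ 2 with hC
  have hC0' : 0 ≤ C := Finset.sum_nonneg fun i _ => sq_nonneg _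
  have htq : td (q - c) 0 = Real.sqrt C := by
    rw [← hq', td_prj q' hq'abs]
  have hsC : Real.sqrt C ≤ 24 * r := by
    rw [← htq, td_sub_zero]
    exact hq
  have hCle : C ≤ 576 * r ^ 2 := by
    have h5 := Real.sq_sqrt hC0'
    have h6 : Real.sqrt C ^ 2 ≤ (24 * r) ^ 2 := pow_le_pow_left₀ (Real.sqrt_nonneg _) hsC 2
    nlinarith
  have hqi : ∀ i, |q' i| ≤ 24 * r := by
    intro i
    have h5 : q' i ^ 2 ≤ C :=
      Finset.single_le_sum (f := fun i => q' i ^ 2) (fun i _ => sq_nonneg _) (Finset.mem_univ i)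
    exact (Real.abs_le_sqrt h5).trans hsC
  -- translation
  set S : Set (Tor d) := {y : Tor d | r' ≤ td y 0 ∧ td y 0 < r ∧ td y (q - c) < td 0 (q - c)}
    with hS
  have e1 : {x : Tor d | r' ≤ td x c ∧ td x c < r ∧ td x q < td c q} =
      {x : Tor d | x - c ∈ S} := by
    ext x
    show (r' ≤ td x c ∧ td x c < r ∧ td x q < td c q) ↔
      (r' ≤ td (x - c) 0 ∧ td (x - c) 0 < r ∧ td (x - c) (q - c) < td 0 (q - c))
    have g1 : td (x - c) (q - c) = td x q := by
      rw [sub_eq_add_neg, sub_eq_add_neg, td_add_right]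
    have g2 : td 0 (q - c) = td c q := by
      have : (0 : Tor d) = c - c := by simp
      rw [this, sub_eq_add_neg, sub_eq_add_neg, td_add_right]
    rw [td_sub_zero, g1, g2]
  have hSm : MeasurableSet S := by
    apply MeasurableSet.inter
    · exact measurableSet_le measurable_const (measurable_td measurable_id measurable_const)
    apply MeasurableSet.inter
    · exact measurableSet_lt (measurable_td measurable_id measurable_const) measurable_const
    · exact measurableSet_lt (measurable_td measurable_id measurable_const) measurable_const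
  rw [e1, trans_set, h1 d S hSm]
  have hkap0 : 0 < kap := by
    unfold kap
    apply Real.sqrt_pos.2
    norm_num
  have hkap2 : kap ^ 2 = 1 - 1 / 4608 := by
    unfold kap
    rw [Real.sq_sqrt (by norm_num)]
  have hkap1 : kap ≤ 1 := by
    by_contra hcon
    push Not at hcon
    nlinarith
  set a : ℝ := r' ^ 2 / (2 * C) with ha
  have hsub : {z : Fin d → ℝ | (∀ i, z i ∈ Set.Ioc (-(1 / 2) : ℝ) (1 / 2)) ∧
      (fun i => ((z i : ℝ) : UnitAddCircle)) ∈ S} ⊆
      (fun z => z + (-(a • q'))) ⁻¹' {z : Fin d → ℝ | ∑ i, z i ^ 2 < (kap * r) ^ 2} := by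
    rintro z ⟨hz1, hz2⟩
    have hz2' : r' ≤ td (prj z) 0 ∧ td (prj z) 0 < r ∧ td (prj z) (q - c) < td 0 (q - c) := hz2
    have hzabs : ∀ i, |z i| ≤ 1 / 2 := by
      intro i
      have := hz1 i
      rw [abs_le]
      exact ⟨by linarith [this.1], this.2⟩
    obtain ⟨hA1, hA2, hA3⟩ := hz2'
    rw [td_prj z hzabs] at hA1 hA2
    set A : ℝ := ∑ i, z i ^ 2 with hA
    set B : ℝ := ∑ i, z i * q' i with hB
    have hA0 : 0 ≤ A := Finset.sum_nonneg fun i _ => sq_nonneg _
    have hsA := Real.sq_sqrt hA0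
    have hA1' : r' ^ 2 ≤ A := by
      rw [← hsA]
      exact pow_le_pow_left₀ hr'.le hA1 2
    have hA2' : A < r ^ 2 := by
      rw [← hsA]
      exact pow_lt_pow_left₀ hA2 (Real.sqrt_nonneg _) (by norm_num)
    have hzi : ∀ i, |z i| ≤ r := by
      intro i
      have h5 : z i ^ 2 ≤ A :=
        Finset.single_le_sum (f := fun i => z i ^ 2) (fun i _ => sq_nonneg _) (Finset.mem_univ i)
      exact (Real.abs_le_sqrt h5).trans hA2.le
    have hdiff : td (prj z) (q - c) = Real.sqrt (∑ i, (z i - q' i) ^ 2) := by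
      rw [← hq', ← td_sub_zero, prj_sub, td_prj]
      · rfl
      · intro i
        have g1 := abs_sub (z i) (q' i)
        have g2 := hzi i
        have g3 := hqi i
        show |z i - q' i| ≤ 1 / 2
        linarith
    have h0q : td 0 (q - c) = Real.sqrt C := by rw [td_comm, htq]
    rw [hdiff, h0q] at hA3
    have hA4 : ∑ i, (z i - q' i) ^ 2 < C := lt_of_not_ge fun hc => absurd (Real.sqrt_le_sqrt hc) (not_le.2 hA3)
    have e2 : ∑ i, (z i - q' i) ^ 2 = A - 2 * B + C := by
      rw [hA, hB, hC, Finset.mul_sum, ← Finset.sum_sub_distrib, ← Finset.sum_add_distrib]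
      apply Finset.sum_congr rfl
      intro i _
      ring
    have hAB : A < 2 * B := by linarith
    have hC0 : 0 < C := by
      rcases hC0'.lt_or_eq with h5 | h5
      · exact h5
      · exfalso
        have h6 : ∀ i, q' i = 0 := by
          intro i
          have h7 : q' i ^ 2 ≤ C := Finset.single_le_sum (f := fun i => q' i ^ 2)
            (fun i _ => sq_nonneg _) (Finset.mem_univ i)
          rw [← h5] at h7
          exact pow_eq_zero_iff (by norm_num) |>.1 (le_antisymm h7 (sq_nonneg _))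
        have h8 : B = 0 := by
          rw [hB]
          apply Finset.sum_eq_zero
          intro i _
          rw [h6 i, mul_zero]
        linarith
    have hest := lens_est A B C r r' hr' hr h4 hA1' hA2' hAB hCle hC0
    show ∑ i, ((z + (-(a • q'))) i) ^ 2 < (kap * r) ^ 2
    have e3 : ∑ i, ((z + (-(a • q'))) i) ^ 2 = A - 2 * a * B + a ^ 2 * C := by
      rw [hA, hB, hC, Finset.mul_sum, Finset.mul_sum, ← Finset.sum_sub_distrib,
        ← Finset.sum_add_distrib]
      apply Finset.sum_congr rfl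
      intro i _
      simp only [Pi.add_apply, Pi.neg_apply, Pi.smul_apply, smul_eq_mul]
      ring
    rw [e3, mul_pow, hkap2]
    linarith
  refine (measure_mono hsub).trans ?_
  rw [measure_preimage_add_right, V_eq h2 d (kap * r) (by positivity) (by nlinarith),
    h3 d kap r hkap0 hkap1 hr (by linarith)]

end Pool.Agent.Q272.NT
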