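import Pool.Agent.Q287.NT.Stm

set_option autoImplicit false

/-!
# Jobs NT-LIFT, NT-EUC, NT-SCALE, NT-SPH, NT-UNI
-/

namespace Pool.Agent.Q272.NT

open MeasureTheory Q287.NT
open scoped ENNReal

lemma mp_lift (d : ℕ) : MeasurePreserving (fun (z : Fin d → ℝ) i => ((z i : ℝ) : UnitAddCircle))
    (volume.restrict (Set.univ.pi fun _ : Fin d => Set.Ioc (-(1 / 2) : ℝ) (-(1 / 2) + 1)))
    (volume : Measure (Tor d)) := by
  have h1 := measurePreserving_pi (fun _ : Fin d => (volume : Measure ℝ).restrict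
    (Set.Ioc (-(1 / 2) : ℝ) (-(1 / 2) + 1))) (fun _ : Fin d => (volume : Measure UnitAddCircle))
    (f := fun _ (x : ℝ) => (x : UnitAddCircle))
    (fun _ => UnitAddCircle.measurePreserving_mk (-(1 / 2)))
  rw [← Measure.restrict_pi_pi] at h1
  exact h1

/-- Job NT-LIFT. -/
theorem t_LIFT : S_LIFT := by
  intro d S hS
  have h1 := (mp_lift d).measure_preimage hS.nullMeasurableSet
  rw [← h1, Measure.restrict_apply ((mp_lift d).measurable hS)]
  congr 1
  ext z
  constructor
  · rintro ⟨h2, h3⟩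
    refine ⟨fun i => ?_, h2⟩
    have := h3 i (Set.mem_univ i)
    norm_num at this ⊢
    exact this
  · rintro ⟨h2, h3⟩
    refine ⟨h3, fun i _ => ?_⟩
    have := h2 i
    norm_num at this ⊢
    exact this

end Pool.Agent.Q272.NT
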