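import Pool.Agent.Q272.NT.Lift

set_option autoImplicit false

/-!
# Jobs NT-EUC, NT-SCALE, NT-SPH, NT-UNI
-/

namespace Pool.Agent.Q272.NT

open MeasureTheory Q287.NT
open scoped ENNReal Pointwise

/-- The projection of the space onto the torus. -/
noncomputable def prj {d : ℕ} (z : Fin d → ℝ) : Tor d := fun i => ((z i : ℝ) : UnitAddCircle)

lemma prj_sub {d : ℕ} (z w : Fin d → ℝ) : prj z - prj w = prj (z - w) := by
  funext i
  unfold prj
  simp

lemma td_prj {d : ℕ} (z : Fin d → ℝ) (hz : ∀ i, |z i| ≤ 1 / 2) :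
    td (prj z) 0 = Real.sqrt (∑ i, z i ^ 2) := by
  unfold td
  congr 1
  apply Finset.sum_congr rfl
  intro i _
  have h1 : ‖(prj z i - (0 : Tor d) i : UnitAddCircle)‖ = |z i| := by
    have : (prj z i - (0 : Tor d) i : UnitAddCircle) = ((z i : ℝ) : UnitAddCircle) := by
      unfold prj
      simp
    rw [this]
    exact (AddCircle.norm_coe_eq_abs_iff (1 : ℝ) one_ne_zero).2 (by rw [abs_one]; exact hz i)
  rw [h1, sq_abs]

lemma measurableSet_ball (d : ℕ) (s : ℝ) : MeasurableSet {y : Tor d | td y 0 < s} :=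
  measurableSet_lt (measurable_td measurable_id measurable_const) measurable_const

/-- Job NT-EUC. -/
theorem t_EUC (h : S_LIFT) : S_EUC := by
  intro d s hs hs2
  unfold V
  rw [h d _ (measurableSet_ball d s)]
  congr 2
  ext z
  constructor
  · rintro ⟨h1, h2⟩
    have h3 : td (prj z) 0 < s := h2
    rw [td_prj z (fun i => by
      have := h1 i
      rw [abs_le]
      exact ⟨by linarith [this.1], this.2⟩), Real.sqrt_lt' hs] at h3
    exact h3
  · intro h1
    have h1' : ∑ i, z i ^ 2 < s ^ 2 := h1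
    have h2 : ∀ i, |z i| < 1 / 2 := by
      intro i
      have h3 : z i ^ 2 ≤ ∑ i, z i ^ 2 :=
        Finset.single_le_sum (f := fun i => z i ^ 2) (fun i _ => sq_nonneg _) (Finset.mem_univ i)
      apply abs_lt_of_sq_lt_sq _ (by norm_num)
      nlinarith
    refine ⟨fun i => ?_, ?_⟩
    · have := abs_lt.1 (h2 i)
      exact ⟨this.1, this.2.le⟩
    · show td (prj z) 0 < s
      rw [td_prj z (fun i => (h2 i).le), Real.sqrt_lt' hs]
      exact h1'

/-- Job NT-SCALE. -/
theorem t_SCALE (h : S_EUC) : S_SCALE := by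
  intro d a s ha ha1 hs hs2
  have has : a * s ≤ 1 / 2 := by nlinarith
  rw [h d (a * s) (by positivity) has, h d s hs hs2]
  have e : {z : Fin d → ℝ | ∑ i, z i ^ 2 < (a * s) ^ 2} =
      a • {z : Fin d → ℝ | ∑ i, z i ^ 2 < s ^ 2} := by
    ext z
    rw [Set.mem_smul_set_iff_inv_smul_mem₀ ha.ne']
    show ∑ i, z i ^ 2 < (a * s) ^ 2 ↔ ∑ i, (a⁻¹ • z) i ^ 2 < s ^ 2
    have e1 : ∑ i, (a⁻¹ • z) i ^ 2 = (a ^ 2)⁻¹ * ∑ i, z i ^ 2 := by
      rw [Finset.mul_sum]
      apply Finset.sum_congr rfl
      intro i _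
      rw [Pi.smul_apply, smul_eq_mul, mul_pow, inv_pow]
    rw [e1, inv_mul_lt_iff₀ (by positivity), mul_pow]
  rw [e, Measure.addHaar_smul, ENNReal.toReal_mul, Module.finrank_fin_fun,
    ENNReal.toReal_ofReal (abs_nonneg _), abs_of_pos (by positivity)]

lemma null_sphere (d : ℕ) (hd : 1 ≤ d) (s : ℝ) :
    volume {z : Fin d → ℝ | ∑ i, z i ^ 2 = s ^ 2} = 0 := by
  haveI : Nonempty (Fin d) := ⟨⟨0, by omega⟩⟩
  have h1 := (PiLp.volume_preserving_toLp (Fin d)).measure_preimage
    (Metric.isClosed_sphere (x := (0 : EuclideanSpace ℝ (Fin d)))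
      (ε := |s|)).measurableSet.nullMeasurableSet
  rw [Measure.addHaar_sphere] at h1
  refine measure_mono_null ?_ h1
  intro z hz
  have hz' : ∑ i, z i ^ 2 = s ^ 2 := hz
  show WithLp.toLp 2 z ∈ Metric.sphere (0 : EuclideanSpace ℝ (Fin d)) |s|
  rw [mem_sphere_zero_iff_norm, EuclideanSpace.norm_eq]
  have : ∑ i, ‖(WithLp.toLp 2 z : EuclideanSpace ℝ (Fin d)) i‖ ^ 2 = s ^ 2 := by
    rw [← hz']
    apply Finset.sum_congr rfl
    intro i _
    rw [Real.norm_eq_abs, sq_abs]
  rw [this, Real.sqrt_sq_eq_abs]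

lemma trans_set {d : ℕ} (c : Tor d) (S : Set (Tor d)) :
    volume {x : Tor d | x - c ∈ S} = volume S := by
  have h : {x : Tor d | x - c ∈ S} = (fun y => y + (-c)) ⁻¹' S := by
    ext y
    simp only [Set.mem_ofPred_eq, Set.mem_preimage]
    rw [← sub_eq_add_neg]
  rw [h, measure_preimage_add_right]

/-- Job NT-SPH. -/
theorem t_SPH (h : S_LIFT) : S_SPH := by
  intro d c s hd
  have e : {z : Tor d | td z c = s} = {z : Tor d | z - c ∈ {y : Tor d | td y 0 = s}} := by
    ext z
    show td z c = s ↔ td (z - c) 0 = s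
    rw [td_sub_zero]
  rw [e, trans_set]
  have hm : MeasurableSet {y : Tor d | td y 0 = s} :=
    measurableSet_eq_fun (measurable_td measurable_id measurable_const) measurable_const
  rw [h d _ hm]
  refine measure_mono_null ?_ (null_sphere d hd s)
  rintro z ⟨h1, h2⟩
  have h3 : td (prj z) 0 = s := h2
  rw [td_prj z (fun i => by
    have := h1 i
    rw [abs_le]
    exact ⟨by linarith [this.1], this.2⟩)] at h3
  show ∑ i, z i ^ 2 = s ^ 2
  rw [← h3, Real.sq_sqrt (Finset.sum_nonneg fun i _ => sq_nonneg _)]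

lemma td_le (d : ℕ) (z : Tor d) : td z 0 ≤ Real.sqrt d := by
  unfold td
  apply Real.sqrt_le_sqrt
  calc ∑ i, ‖z i - (0 : Tor d) i‖ ^ 2 ≤ ∑ _i : Fin d, (1 : ℝ) := by
        apply Finset.sum_le_sum
        intro i _
        have h1 : ‖z i - (0 : Tor d) i‖ ≤ 1 :=
          (AddCircle.norm_le_half_period (1 : ℝ) (x := z i - (0 : Tor d) i) one_ne_zero).trans
            (by rw [abs_one]; norm_num)
        have h2 : 0 ≤ ‖z i - (0 : Tor d) i‖ := norm_nonneg _
        nlinarith
    _ = d := by simp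

/-- Job NT-UNI. -/
theorem t_UNI (h : S_SPH) : S_UNI := by
  intro d c u hd
  by_cases hu0 : u ≤ 0
  · have : {z : Tor d | V d (td z c) < u} = ∅ := by
      ext z
      simp only [Set.mem_ofPred_eq, Set.mem_empty_iff_false, iff_false, not_lt]
      exact hu0.trans (V_nonneg _)
    rw [this, measure_empty]
    exact zero_le
  push Not at hu0
  by_cases hu1 : 1 < u
  · calc volume {z : Tor d | V d (td z c) < u} ≤ 1 := prob_le_one
      _ = ENNReal.ofReal 1 := by simp
      _ ≤ ENNReal.ofReal u := ENNReal.ofReal_le_ofReal hu1.le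
  push Not at hu1
  set A : Set ℝ := {s | V d s < u} with hA
  have hA0 : (0 : ℝ) ∈ A := by
    show V d 0 < u
    have : V d 0 = 0 := by
      unfold V
      have : {y : Tor d | td y 0 < 0} = ∅ := by
        ext y
        simp only [Set.mem_ofPred_eq, Set.mem_empty_iff_false, iff_false, not_lt]
        exact td_nonneg _ _
      rw [this]
      simp
    rw [this]
    exact hu0
  have hbdd : BddAbove A := by
    refine ⟨Real.sqrt d + 1, fun s hs => ?_⟩
    by_contra hcon
    push Not at hcon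
    have h1 : V d s = 1 := by
      unfold V
      have : {y : Tor d | td y 0 < s} = Set.univ := by
        ext y
        simp only [Set.mem_ofPred_eq, Set.mem_univ, iff_true]
        have := td_le d y
        linarith
      rw [this]
      simp
    have h2 : V d s < u := hs
    linarith
  have h1 : volume {z : Tor d | V d (td z c) < u} ≤
      volume ({z : Tor d | td z c < sSup A} ∪ {z : Tor d | td z c = sSup A}) := by
    apply measure_mono
    intro z hz
    have h2 : td z c ≤ sSup A := le_csSup hbdd hz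
    rcases lt_or_eq_of_le h2 with h3 | h3
    · exact Or.inl h3
    · exact Or.inr h3
  refine h1.trans ((measure_union_le _ _).trans ?_)
  rw [h d c (sSup A) hd, add_zero]
  have h3 : {z : Tor d | td z c < sSup A} =
      ⋃ n : ℕ, {z : Tor d | td z c < sSup A - 1 / ((n : ℝ) + 1)} := by
    ext z
    simp only [Set.mem_ofPred_eq, Set.mem_iUnion]
    constructor
    · intro hz
      obtain ⟨n, hn⟩ := exists_nat_one_div_lt (sub_pos.2 hz)
      exact ⟨n, by linarith⟩
    · rintro ⟨n, hn⟩
      have : (0 : ℝ) < 1 / ((n : ℝ) + 1) := by positivity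
      linarith
  have hmono : Monotone fun n : ℕ => {z : Tor d | td z c < sSup A - 1 / ((n : ℝ) + 1)} := by
    intro n m hnm z hz
    have hz' : td z c < sSup A - 1 / ((n : ℝ) + 1) := hz
    show td z c < sSup A - 1 / ((m : ℝ) + 1)
    have h4 : (1 : ℝ) / ((m : ℝ) + 1) ≤ 1 / ((n : ℝ) + 1) := by
      apply one_div_le_one_div_of_le (by positivity)
      have : (n : ℝ) ≤ m := by exact_mod_cast hnm
      linarith
    linarith
  rw [h3, hmono.measure_iUnion]
  apply iSup_le
  intro n
  rw [vol_ball]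
  apply ENNReal.ofReal_le_ofReal
  have h5 : sSup A - 1 / ((n : ℝ) + 1) < sSup A := by
    have : (0 : ℝ) < 1 / ((n : ℝ) + 1) := by positivity
    linarith
  obtain ⟨a, ha, hlt⟩ := exists_lt_of_lt_csSup ⟨0, hA0⟩ h5
  have h6 : V d a < u := ha
  exact (V_mono hlt.le).trans h6.le

end Pool.Agent.Q272.NT
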