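import Pool.Agent.Q272.NT.Lens

set_option autoImplicit false

/-!
# Jobs NT-TIME, NT-PATH, NT-WALK
-/

namespace Pool.Agent.Q272.NT

open MeasureTheory Q287.NT Filter Topology
open scoped ENNReal

/-- Job NT-TIME. -/
theorem t_TIME (h : S_SCALE) : S_TIME := by
  intro d x t0 r0 m
  induction m with
  | zero =>
    intro j hd hr0 hr1 hG
    obtain ⟨rfl, h1, h2⟩ := hG
    refine ⟨h1, by simpa using h2, ?_⟩
    have : 0 ≤ 2 * (8 : ℝ) ^ (d * 0) / V d r0 := by
      have := V_pos (d := d) hr0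
      positivity
    linarith
  | succ m ih =>
    intro j hd hr0 hr1 hG
    obtain ⟨t, htj, hGt, hS⟩ := hG
    obtain ⟨hgt, hRt, htt⟩ := ih t hd hr0 hr1 hGt
    obtain ⟨h1, h2, h3, h4, h5⟩ := hS
    have h8 : (0 : ℝ) < 8 ^ m := by positivity
    have hRj : r0 / 8 ^ (m + 1) ≤ Rp x j := by
      have : r0 / 8 ^ (m + 1) = r0 / 8 ^ m / 8 := by
        rw [pow_succ]
        field_simp
      rw [this]
      linarith
    refine ⟨h5, hRj, ?_⟩
    have hV0 := V_pos (d := d) hr0
    have hscale : V d (1 / 8 ^ (m + 1) * r0) = (1 / 8 ^ (m + 1)) ^ d * V d r0 := by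
      apply h d _ _ (by positivity) _ hr0 (by linarith)
      rw [div_le_one (by positivity)]
      exact one_le_pow₀ (by norm_num)
    have hV1 : (1 / 8 ^ (m + 1)) ^ d * V d r0 ≤ V d (Rp x j) := by
      rw [← hscale]
      apply V_mono
      rw [one_div_mul_eq_div]
      exact hRj
    have h9 : ((1 : ℝ) / 8 ^ (m + 1)) ^ d = 1 / 8 ^ (d * (m + 1)) := by
      rw [div_pow, one_pow, ← pow_mul, mul_comm (m + 1) d]
    rw [h9] at hV1
    have hjt : 0 ≤ (j : ℝ) - t := by
      have : (t : ℝ) < j := by exact_mod_cast htj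
      linarith
    have h10 : ((j : ℝ) - t) * (1 / 8 ^ (d * (m + 1)) * V d r0) ≤ 1 :=
      (mul_le_mul_of_nonneg_left hV1 hjt).trans h4
    have h11 : (j : ℝ) - t ≤ 8 ^ (d * (m + 1)) / V d r0 := by
      rw [le_div_iff₀ hV0]
      have h12 : (0 : ℝ) < 8 ^ (d * (m + 1)) := by positivity
      have h13 : ((j : ℝ) - t) * (1 / 8 ^ (d * (m + 1)) * V d r0) =
          ((j : ℝ) - t) * V d r0 / 8 ^ (d * (m + 1)) := by ring
      rw [h13, div_le_one h12] at h10
      exact h10
    have h14 : 2 * (8 : ℝ) ^ (d * m) / V d r0 + 8 ^ (d * (m + 1)) / V d r0 ≤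
        2 * 8 ^ (d * (m + 1)) / V d r0 := by
      rw [← add_div]
      apply div_le_div_of_nonneg_right _ hV0.le
      have h15 : (8 : ℝ) ^ (d * (m + 1)) = 8 ^ (d * m) * 8 ^ d := by
        rw [← pow_add]
        congr 1
      have h16 : (8 : ℝ) ≤ 8 ^ d := by
        calc (8 : ℝ) = 8 ^ 1 := (pow_one _).symm
          _ ≤ 8 ^ d := pow_le_pow_right₀ (by norm_num) hd
      have h17 : (0 : ℝ) < 8 ^ (d * m) := by positivity
      rw [h15]
      nlinarith
    linarith

lemma coe_neg_half : ((-(1 / 2) : ℝ) : UnitAddCircle) = ((1 / 2 : ℝ) : UnitAddCircle) := by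
  have h : ((1 / 2 : ℝ) : UnitAddCircle) = ((-(1 / 2) : ℝ) : UnitAddCircle) + ((1 : ℝ)) := by
    rw [← AddCircle.coe_add]
    norm_num
  rw [h, AddCircle.coe_period, add_zero]

/-- Job NT-PATH. -/
theorem t_PATH : S_PATH := by
  intro d y R η hη hR
  obtain ⟨y', hy'c, hy'⟩ := exists_rep y
  have hy'abs : ∀ i, |y' i| ≤ 1 / 2 := by
    intro i
    have := hy'c i
    rw [abs_le]
    exact ⟨by linarith [this.1], this.2⟩
  obtain ⟨K, hK⟩ := exists_nat_gt (Real.sqrt d / η + 2)
  have hsd : 0 ≤ Real.sqrt d := Real.sqrt_nonneg _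
  have hKd : Real.sqrt d / η < K := by linarith [div_nonneg hsd hη.le]
  have hK2 : (2 : ℝ) < K := by linarith [div_nonneg hsd hη.le]
  have hK0 : (0 : ℝ) < K := by linarith
  set s : Fin d → ℝ := fun i => if 0 ≤ y' i then 1 else -1 with hs
  have hsy : ∀ i, ∀ u : ℝ, 0 ≤ u → u ≤ 1 → |y' i| ≤ |(1 - u) * y' i + u * (s i / 2)| ∧
      |(1 - u) * y' i + u * (s i / 2)| ≤ 1 / 2 := by
    intro i u hu0 hu1
    have h1 := hy'abs i
    simp only [hs]
    by_cases hy0 : 0 ≤ y' i
    · rw [if_pos hy0]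
      rw [abs_of_nonneg hy0] at h1 ⊢
      rw [abs_of_nonneg (by nlinarith)]
      constructor <;> nlinarith
    · rw [if_neg hy0]
      push Not at hy0
      rw [abs_of_neg hy0] at h1 ⊢
      rw [abs_of_nonpos (by nlinarith)]
      constructor <;> nlinarith
  set w : ℕ → Fin d → ℝ := fun k i => (1 - (k : ℝ) / K) * y' i + (k : ℝ) / K * (s i / 2) with hw
  refine ⟨K, fun k => prj (w k), ?_, ?_, ?_, ?_⟩
  · rw [← hy']
    congr 1
    funext i
    simp only [hw]
    simp
  · funext i
    show ((w K i : ℝ) : UnitAddCircle) = ((1 / 2 : ℝ) : UnitAddCircle)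
    have h1 : w K i = s i / 2 := by
      simp only [hw]
      rw [div_self hK0.ne']
      ring
    rw [h1]
    simp only [hs]
    split_ifs
    · rfl
    · rw [show (-1 : ℝ) / 2 = -(1 / 2) by norm_num]
      exact coe_neg_half
  · intro k hk
    have hcoord : ∀ i, |(w k - w (k + 1)) i| ≤ 1 / K := by
      intro i
      have e : (w k - w (k + 1)) i = (1 / K) * (y' i - s i / 2) := by
        simp only [hw, Pi.sub_apply]
        push_cast
        field_simp
        ring
      rw [e, abs_mul, abs_of_pos (by positivity)]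
      have h2 : |y' i - s i / 2| ≤ 1 := by
        have h3 := hy'abs i
        have h4 : |s i / 2| ≤ 1 / 2 := by
          simp only [hs]
          split_ifs
          · rw [abs_of_pos (by norm_num)]
          · rw [abs_of_neg (by norm_num)]
            norm_num
        have := abs_sub (y' i) (s i / 2)
        linarith
      calc 1 / (K : ℝ) * |y' i - s i / 2| ≤ 1 / K * 1 :=
            mul_le_mul_of_nonneg_left h2 (by positivity)
        _ = 1 / K := mul_one _
    show td (prj (w k)) (prj (w (k + 1))) < η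
    rw [← td_sub_zero, prj_sub, td_prj]
    · have h5 : ∑ i, (w k - w (k + 1)) i ^ 2 ≤ d * (1 / K) ^ 2 := by
        calc ∑ i, (w k - w (k + 1)) i ^ 2 ≤ ∑ _i : Fin d, (1 / (K : ℝ)) ^ 2 := by
              apply Finset.sum_le_sum
              intro i _
              rw [← sq_abs]
              exact pow_le_pow_left₀ (abs_nonneg _) (hcoord i) 2
          _ = d * (1 / K) ^ 2 := by simp
      calc Real.sqrt (∑ i, (w k - w (k + 1)) i ^ 2) ≤ Real.sqrt (d * (1 / K) ^ 2) :=
            Real.sqrt_le_sqrt h5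
        _ = Real.sqrt d * (1 / K) := by
            rw [Real.sqrt_mul (Nat.cast_nonneg d), Real.sqrt_sq (by positivity)]
        _ < η := by
            rw [mul_one_div, div_lt_iff₀ hK0]
            rw [div_lt_iff₀ hη] at hKd
            linarith
    · intro i
      refine (hcoord i).trans ?_
      apply one_div_le_one_div_of_le (by norm_num) hK2.le
  · intro k hk
    have hu1 : (k : ℝ) / K ≤ 1 := by
      rw [div_le_one hK0]
      exact_mod_cast hk
    have hu0 : 0 ≤ (k : ℝ) / K := by positivity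
    show R ≤ td (prj (w k)) 0
    rw [td_prj (w k) (fun i => (hsy i _ hu0 hu1).2)]
    refine hR.trans ?_
    rw [← hy', td_prj y' hy'abs]
    apply Real.sqrt_le_sqrt
    apply Finset.sum_le_sum
    intro i _
    rw [← sq_abs (y' i), ← sq_abs (w k i)]
    exact pow_le_pow_left₀ (abs_nonneg _) (hsy i _ hu0 hu1).1 2

/-- A walk with small steps outside of a ball. -/
def Wk {d : ℕ} (R η : ℝ) (N : ℕ) (z : ℕ → Tor d) : Prop :=
  (∀ k < N, td (z k) (z (k + 1)) < η) ∧ ∀ k ≤ N, R ≤ td (z k) 0

lemma wk_concat {d : ℕ} {R η : ℝ} {N K : ℕ} {z w : ℕ → Tor d} (hz : Wk R η N z)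
    (hw : Wk R η K w) (h : w 0 = z N) :
    Wk R η (N + K) (fun k => if k ≤ N then z k else w (k - N)) := by
  constructor
  · intro k hk
    show td (if k ≤ N then z k else w (k - N)) (if k + 1 ≤ N then z (k + 1) else w (k + 1 - N)) < η
    by_cases h1 : k + 1 ≤ N
    · rw [if_pos (by omega : k ≤ N), if_pos h1]
      exact hz.1 k (by omega)
    · rw [if_neg h1]
      by_cases h2 : k ≤ N
      · rw [if_pos h2]
        have hkN : k = N := by omega
        rw [hkN, ← h, show N + 1 - N = 0 + 1 by omega]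
        exact hw.1 0 (by omega)
      · rw [if_neg h2, show k + 1 - N = (k - N) + 1 by omega]
        exact hw.1 (k - N) (by omega)
  · intro k hk
    show R ≤ td (if k ≤ N then z k else w (k - N)) 0
    split_ifs with h1
    · exact hz.2 k h1
    · exact hw.2 (k - N) (by omega)

lemma wk_rev {d : ℕ} {R η : ℝ} {N : ℕ} {z : ℕ → Tor d} (hz : Wk R η N z) :
    Wk R η N (fun k => z (N - k)) := by
  constructor
  · intro k hk
    show td (z (N - k)) (z (N - (k + 1))) < η
    rw [td_comm, show N - k = (N - (k + 1)) + 1 by omega]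
    exact hz.1 _ (by omega)
  · intro k hk
    exact hz.2 _ (by omega)

lemma wk_conn (h : S_PATH) {d : ℕ} {R η : ℝ} (hη : 0 < η) (a b : Tor d) (ha : R ≤ td a 0)
    (hb : R ≤ td b 0) : ∃ (K : ℕ) (w : ℕ → Tor d), w 0 = a ∧ w K = b ∧ Wk R η K w := by
  obtain ⟨K1, z1, h1, h2, h3, h4⟩ := h d a R η hη ha
  obtain ⟨K2, z2, g1, g2, g3, g4⟩ := h d b R η hη hb
  have hc := wk_concat (show Wk R η K1 z1 from ⟨h3, h4⟩)
    (wk_rev (show Wk R η K2 z2 from ⟨g3, g4⟩)) (by simp only [Nat.sub_zero]; rw [g2, h2])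
  refine ⟨K1 + K2, _, ?_, ?_, hc⟩
  · simp only [Nat.zero_le, if_true]
    exact h1
  · by_cases hK : K1 + K2 ≤ K1
    · have : K2 = 0 := by omega
      rw [if_pos hK]
      subst this
      rw [Nat.add_zero, h2, ← g2, g1]
    · rw [if_neg hK]
      have : K2 - (K1 + K2 - K1) = 0 := by omega
      rw [this, g1]

/-- Job NT-WALK. -/
theorem t_WALK (h : S_PATH) : S_WALK := by
  intro d z1 R η hη hR
  have hcont : ∀ a : Tor d, Continuous fun y : Tor d => td y a := fun a =>
    continuous_td.comp (continuous_id.prodMk continuous_const)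
  have hcomp : IsCompact {y : Tor d | R ≤ td y 0} :=
    (isClosed_le continuous_const (hcont 0)).isCompact
  obtain ⟨F, hF1, hF2⟩ := hcomp.elim_nhds_subcover (fun a => {y : Tor d | td y a < η})
    (fun a _ => (isOpen_lt (hcont a) continuous_const).mem_nhds (by simpa using hη))
  have key : ∀ G : Finset (Tor d), (∀ a ∈ G, R ≤ td a 0) →
      ∃ (N : ℕ) (z : ℕ → Tor d), z 0 = z1 ∧ Wk R η N z ∧ ∀ a ∈ G, ∃ k ≤ N, z k = a := by
    classical
    intro G
    induction G using Finset.induction_on with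
    | empty =>
      intro _
      refine ⟨0, fun _ => z1, rfl, ⟨fun k hk => absurd hk (by omega), fun k _ => hR⟩, ?_⟩
      intro a ha
      exact absurd ha (Finset.notMem_empty a)
    | insert b G hb ih =>
      intro hG
      obtain ⟨N, z, hz0, hz, hzG⟩ := ih (fun a ha => hG a (Finset.mem_insert_of_mem ha))
      obtain ⟨K, w, hw0, hwK, hw⟩ := wk_conn h hη (z N) b (hz.2 N le_rfl)
        (hG b (Finset.mem_insert_self b G))
      refine ⟨N + K, _, ?_, wk_concat hz hw hw0, ?_⟩
      · simp only [Nat.zero_le, if_true]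
        exact hz0
      · intro a ha
        rcases Finset.mem_insert.1 ha with rfl | ha
        · refine ⟨N + K, le_rfl, ?_⟩
          by_cases hK : N + K ≤ N
          · have : K = 0 := by omega
            rw [if_pos hK]
            subst this
            rw [Nat.add_zero, ← hw0, hwK]
          · rw [if_neg hK, show N + K - N = K by omega, hwK]
        · obtain ⟨k, hk, hka⟩ := hzG a ha
          exact ⟨k, by omega, (if_pos hk).trans hka⟩
  obtain ⟨N, z, hz0, hz, hzF⟩ := key F hF1
  refine ⟨N, z, hz0, hz.1, hz.2, fun y hy => ?_⟩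
  have h1 := hF2 hy
  simp only [Set.mem_iUnion] at h1
  obtain ⟨a, ha, hya⟩ := h1
  obtain ⟨k, hk, hka⟩ := hzF a ha
  refine ⟨k, hk, ?_⟩
  rw [hka]
  exact hya

end Pool.Agent.Q272.NT
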